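import Pool.Agent.Helper5.TRY.Mc
import Pool.Agent.Helper8.CPY.AllE

/-! DEFICIT AND VISIBILITY for truncations, any resolution. -/

set_option autoImplicit false

namespace Pool.Agent.Helper5.TRY

open Finset Filter Topology Pool.Agent.Helper69.RK Pool.Agent.Helper31.EC Pool.Agent.Helper31.EC.Sp
open Pool.Agent.Helper40.EL Pool.Agent.Helper89.LX Pool.Agent.Helper3.LF Pool.Agent.Helper84.MT
open Pool.Agent.Helper36.AM
open Pool.Agent.Helper29.MX
open Pool.Agent.Helper52.SL (untF tnF untL tnL nul_trn cellv_chg untF_leak tnF_leak)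
open Pool.Agent.Helper13.AM (chg_sub')

noncomputable section

variable {S : Sp} {M : ℕ} {E : ℕ → ℕ} {ι : Type} {s : MSys S M E ι} {R : Rsl S} {e : ℝ} {h0 : 0 < e} {h1 : e ≤ 1}

/-- cells of close points -/
theorem cells_near {y y' : S.VV M} {K : ℕ → ℝ} (hK : S.Sub K) {r : ℝ}
    (hh : ∀ᶠ k in UF, ∀ ω, (S.F k).μ ω ≠ 0 → ∀ j, |y'.v k ω j - y.v k ω j| ≤ K k * S.dl r k) :
    PLe (fun k => fc (Setoid.ker (y.cellv r k))) (fun k => fc (Setoid.ker (y'.cellv r k))) := by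
  refine PLe_cell y r (fun k => Setoid.ker (y'.cellv r k)) (fun k => 1 + (K k + K k))
    ((S.Sub_const zero_le_one).add (hK.add hK)) ?_
  filter_upwards [hh] with k hk ω ω' a b _ hc j
  have h2 := hk ω a j
  have h3 := hk ω' b j
  have h4 : |y'.v k ω j - y'.v k ω' j| ≤ S.dl r k := abs_sub_le_of_floor_eq (S.dl_pos r k) (congrFun hc j)
  rw [abs_le] at h2 h3 h4 ⊢
  constructor <;> linarith

/-- the coordinates over a literal label of the truncated space, in the space -/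
def zV {X : Rsl S} (y : (Lab.ofZ (S := S.chg S.tr e h0) X).sp.VV M) : S.VV M := ⟨y.v, by
  obtain ⟨K, hK, h⟩ := y.bd
  exact ⟨K, chg_sub' S.tr e h0 ((sp_Sub (Lab.ofZ (S := S.chg S.tr e h0) X)).mp hK), h⟩⟩

theorem zV_cell {X : Rsl S} (y : (Lab.ofZ (S := S.chg S.tr e h0) X).sp.VV M) (b : ℝ) (k : ℕ) :
    y.cellv b k = (zV y).cellv (e * b) k := by
  show (fun ω => cell ((S.chg S.tr e h0).dl b k) (y.v k ω)) = fun ω => cell (S.dl (e * b) k) (y.v k ω)
  rw [chg_dl]

/-- entropies of cells over a literal label of the truncated space -/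
theorem zV_h {X : Rsl S} (y : (Lab.ofZ (S := S.chg S.tr e h0) X).sp.VV M) (b : ℝ) (k : ℕ) :
    h (fc (Setoid.ker (y.cellv b k)) : FL (Lab.ofZ (S := S.chg S.tr e h0) X k).T)
      (Lab.ofZ (S := S.chg S.tr e h0) X k).v =
    h (fc (F := S.F k) (Setoid.ker ((zV y).cellv (e * b) k))) (fc (X k)) := by
  rw [zV_cell]
  exact h_chg_top (F := S.F k) e h0 (Setoid.ker ((zV y).cellv (e * b) k)) (X k)

section wts

variable {w : Fin M → ℝ}

/-- the data of a frame of the truncation -/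
theorem up_ex {c : ℝ} (hw : ∀ j, 1 ≤ w j) (hc : 0 ≤ c) {X : Rsl S}
    (f : Frm (s.Q.chg S.tr e h0) (Lab.ofZ (S := S.chg S.tr e h0) X) fun j => w j * c) {b : ℝ} (hb : 0 < b)
    (hb1 : ∀ i, w i * c + b ≤ 1) : ∃ f' : Frm s.Q (Lab.ofZ X) fun j => w j * (e * c),
      PLe (fun k => fc (Setoid.ker ((zV f.X).cellv (e * b) k)))
        (fun k => (fc (Setoid.ker (f'.X.cellv (e * b) k)) : FL (S.F k))) ∧
      PLe (fun k => (fc (Setoid.ker (f'.X.cellv (e * b) k)) : FL (S.F k)))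
        (fun k => fc (Setoid.ker ((zV f.X).cellv (e * b) k))) := by
  obtain ⟨d, hd⟩ := deg_ex f hc hw
  have hc1 : ∀ j, w j * c ≤ 1 := fun j => by linarith [hb1 j]
  obtain ⟨K, hK, hn⟩ := fuz_near (mul_hLa w e c) f (hL0_of hw h0 hc) (hL1_of h0 hc1) hd
  obtain ⟨f', hf'⟩ : ∃ f', f' = fuz (mul_hLa w e c) f (hL0_of hw h0 hc) (hL1_of h0 hc1) hd := ⟨_, rfl⟩
  rw [← hf'] at hn
  refine ⟨f', ?_, ?_⟩
  · refine cells_near (y := zV f.X) (y' := (⟨f'.X.v, f'.X.bd⟩ : S.VV M)) hK ?_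
    filter_upwards [hn, hK.1] with k hk hK0 ω hω j
    refine (hk ω hω j).trans (mul_le_mul_of_nonneg_left (S.dl_anti ?_ k) hK0)
    rw [mul_hLa]
    nlinarith [hb1 j, h0]
  · refine cells_near (y := (⟨f'.X.v, f'.X.bd⟩ : S.VV M)) (y' := zV f.X) hK ?_
    filter_upwards [hn, hK.1] with k hk hK0 ω hω j
    rw [abs_sub_comm]
    refine (hk ω hω j).trans (mul_le_mul_of_nonneg_left (S.dl_anti ?_ k) hK0)
    rw [mul_hLa]
    nlinarith [hb1 j, h0]

/-- [DFX] for truncations -/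
theorem dfx_trn {ρ : ℝ} (hw : ∀ j, 1 ≤ w j) (hD : Dfx w ρ s R) : Dfx (S := S.chg S.tr e h0) w ρ (s.trn e h0 h1) R := by
  intro c hc hc1 X hX f b hb hb1
  obtain ⟨f', hf1, hf2⟩ := up_ex (s := s) hw hc f hb hb1
  have hc2 : ∀ i, w i * (e * c) < 1 := fun i => by
    rw [mul_hLa]
    exact lt_of_lt_of_le (mul_lt_of_lt_one_right h0 (hc1 i)) h1
  have h2 := hD (e * c) (mul_nonneg h0.le hc) hc2 X ((mc_trn hw hc fun i => (hc1 i).le).mp hX) f' (e * b)
    (mul_pos h0 hb) (fun i => by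
      rw [mul_hLa]
      have := mul_le_mul_of_nonneg_left (hb1 i) h0.le
      linarith)
  have h3 : ul (fun k => h (fc (F := S.F k) (Setoid.ker ((zV f.X).cellv (e * b) k))) (fc (X k)) / (S.F k).n) ≤
      (M - ρ) * (e * b) := by
    refine le_trans ?_ h2
    have u1 := Pool.Agent.Helper3.MX.UB_cell (zV f.X) (e * b) (fun k => (fc (X k) : FL (S.F k)))
    have u2 := Pool.Agent.Helper3.MX.UB_cell (⟨f'.X.v, f'.X.bd⟩ : S.VV M) (e * b) (fun k => (fc (X k) : FL (S.F k)))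
    have u3 := Pool.Agent.Helper3.MX.UB_cell (zV f.X) (e * b)
      (fun k => (fc (Setoid.ker (f'.X.cellv (e * b) k)) : FL (S.F k)))
    have z : ul (fun k => h (fc (F := S.F k) (Setoid.ker ((zV f.X).cellv (e * b) k)))
      (fc (Setoid.ker (f'.X.cellv (e * b) k)) : FL (S.F k)) / (S.F k).n) = 0 := ul_eq hf1
    have h5 := ul_add u2 u3
    rw [z, add_zero] at h5
    refine le_trans (ul_mono u1 (u2.add u3) (Eventually.of_forall fun k => ?_)) (le_of_eq h5)
    rw [← add_div]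
    refine div_le_div_of_nonneg_right ?_ (S.F k).pos.le
    have h6 := h_triangle' (fc (F := S.F k) (Setoid.ker ((zV f.X).cellv (e * b) k)))
      (fc (Setoid.ker (f'.X.cellv (e * b) k)) : FL (S.F k)) (fc (X k))
    rw [add_comm] at h6
    exact h6
  have h4 := Pool.Agent.Helper8.CPY.ul_chg (S := S) h0
    (f := fun k => h (fc (F := S.F k) (Setoid.ker ((zV f.X).cellv (e * b) k))) (fc (X k)))
    (g := fun k => h (fc (Setoid.ker (f.X.cellv b k)) : FL (Lab.ofZ (S := S.chg S.tr e h0) X k).T)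
      (Lab.ofZ (S := S.chg S.tr e h0) X k).v) (fun k => zV_h f.X b k) (Pool.Agent.Helper3.MX.UB_cell (zV f.X) (e * b) _)
  refine le_trans (le_of_eq h4) ?_
  rw [div_le_iff₀ h0]
  linarith

/-- entropies given cells over a literal label of the truncated space -/
theorem zV_h2 {X : Rsl S} (X' : Rsl S) (y : (Lab.ofZ (S := S.chg S.tr e h0) X).sp.VV M) (b : ℝ) (k : ℕ) :
    h ((Lab.ofZ (S := S.chg S.tr e h0) X k).p.map (fc (F := (S.chg S.tr e h0).F k) (X' k)))
      ((Lab.ofZ (S := S.chg S.tr e h0) X k).v ⊔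
        (fc (Setoid.ker (y.cellv b k)) : FL (Lab.ofZ (S := S.chg S.tr e h0) X k).T)) =
    h (fc (X' k)) (fc (X k) ⊔ fc (F := S.F k) (Setoid.ker ((zV y).cellv (e * b) k))) := by
  rw [zV_cell]
  exact h_chg_top (F := S.F k) e h0 (X' k) (X k ⊓ Setoid.ker ((zV y).cellv (e * b) k))

/-- [VSX] for truncations -/
theorem vsx_trn (hw : ∀ j, 1 ≤ w j) (hV : Vsx w s R) : Vsx (S := S.chg S.tr e h0) w (s.trn e h0 h1) R := by
  intro c c' hc hcc hc1 X X' hX hX' f b hb hb1 hcb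
  obtain ⟨f', hf1, hf2⟩ := up_ex (s := s) hw hc f hb hb1
  have hc2 : ∀ i, w i * (e * c') < 1 := fun i => by
    rw [mul_hLa]
    exact lt_of_lt_of_le (mul_lt_of_lt_one_right h0 (hc1 i)) h1
  have hc3 : ∀ i, w i * c ≤ 1 := fun i => by linarith [hb1 i]
  have h2 := hV (e * c) (e * c') (mul_nonneg h0.le hc) (mul_le_mul_of_nonneg_left hcc h0.le) hc2 X X'
    ((mc_trn hw hc hc3).mp hX) ((mc_trn hw (hc.trans hcc) fun i => (hc1 i).le).mp hX') f' (e * b)
    (mul_pos h0 hb) (fun i => by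
      rw [mul_hLa]
      have := mul_le_mul_of_nonneg_left (hb1 i) h0.le
      linarith) (fun i => by
      have := mul_lt_mul_of_pos_left (hcb i) h0
      calc w i * (e * c' - e * c) = e * (w i * (c' - c)) := by ring
        _ < e * b := this)
  apply nul_trn.mpr
  have h3 : Nul S (fun k => h (fc (F := S.F k) (X' k))
      (fc (F := S.F k) (X k) ⊔ fc (F := S.F k) (Setoid.ker ((zV f.X).cellv (e * b) k)))) := by
    refine Nul.of_le (h2.add hf2) (Eventually.of_forall fun k => h_nonneg _ _) (Eventually.of_forall fun k => ?_)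
    have h6 := h_triangle' (fc (F := S.F k) (X' k))
      (fc (F := S.F k) (X k) ⊔ (fc (Setoid.ker (f'.X.cellv (e * b) k)) : FL (S.F k)))
      (fc (F := S.F k) (X k) ⊔ fc (F := S.F k) (Setoid.ker ((zV f.X).cellv (e * b) k)))
    refine h6.trans (add_le_add le_rfl ?_)
    refine (h_sup_le _ _ _).trans ?_
    rw [h_zero le_sup_left, zero_add]
    exact h_anti le_sup_right
  have e1 := funext fun k => zV_h2 (S := S) (X := X) X' f.X b k
  rw [← e1] at h3
  exact h3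

end wts

end

end Pool.Agent.Helper5.TRY
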