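import Pool.Agent.Helper5.TRY.Dv
import Pool.Agent.Helper50.TRY.Tot
import Pool.Agent.Helper83.SELY.T2

/-! [TRY] THE LAST CLASS IS CLOSED UNDER TRUNCATIONS. -/

set_option autoImplicit false

namespace Pool.Agent.Helper5.TRY

open Pool.Agent.Helper29.MX

/-- [TRY] -/
theorem tryr (M : ℕ) : TRYR M :=
  Pool.Agent.Helper83.SELY.tryr_of fun _ _ _ _ hw _ he h1 _ _ _ ht hc hd hv =>
    ⟨Pool.Agent.Helper50.TRY.tot_trn he h1 hw.ge ht hc, car_trn hw.ge hc, dfx_trn hw.ge hd, vsx_trn hw.ge hv⟩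

end Pool.Agent.Helper5.TRY
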