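import Pool.Agent.Helper18.TRF.Cmp
import Pool.Agent.Helper25.DX.Trv

/-! TRUNCATION OF FRAMES: frames of the truncation of a point at the level `e` with exponents at most `1` are the frames
of the point with exponents at most `e` (for the same label, exponents divided by `e`), for all labels. Down: the same
coordinates. Up: the exact coordinates; they differ from the old ones by the finest resolution of the truncation. -/

set_option autoImplicit false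

namespace Pool.Agent.Helper5.TRY

open Finset Filter Topology Pool.Agent.Helper69.RK Pool.Agent.Helper31.EC Pool.Agent.Helper31.EC.Sp
open Pool.Agent.Helper40.EL Pool.Agent.Helper89.LX Pool.Agent.Helper3.LF Pool.Agent.Helper84.MT
open Pool.Agent.Helper36.AM
open Pool.Agent.Helper52.SL (untF tnF untL tnL nul_trn cellv_chg)
open Pool.Agent.Helper18.TRF (Rfn frx dl_inv_mul frm_deg0)
open Pool.Agent.Helper13.AM (chg_sub')

noncomputable section

variable {S : Sp} {M : ℕ} {e : ℝ} {h0 : 0 < e} {Q : S.VV M} {La La' : Fin M → ℝ}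

theorem unt_Sub (l : Lab (S.chg S.tr e h0)) {K : ℕ → ℝ} : l.sp.Sub K ↔ (untL l).sp.Sub K := by
  rw [sp_Sub, sp_Sub]
  exact ⟨fun h => chg_sub' S.tr e h0 h, fun h => chg_sub S.tr e h0 h⟩

theorem wsum_mul (hLa : ∀ j, La' j = e * La j) (a : Fin M →₀ ℕ) :
    ∑ i, (a i : ℝ) * La' i = e * ∑ i, (a i : ℝ) * La i := by
  rw [Finset.mul_sum]
  exact Finset.sum_congr rfl fun i _ => by rw [hLa]; ring

section gen

variable {l : Lab (S.chg S.tr e h0)}

/-- FRAMES DOWN: a frame of the point is a frame of the truncation -/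
def fdn (hLa : ∀ j, La' j = e * La j) (h1 : e ≤ 1) (f : Frm Q (untL l) La') : Frm (Q.chg S.tr e h0) l La where
  X := ⟨f.X.v, by
    obtain ⟨K, hK, h⟩ := f.X.bd
    exact ⟨K, (unt_Sub l).mpr hK, h⟩⟩
  P := f.P
  tri := f.tri
  red := fun k ω j a ha hz => by
    have h2 := f.red k ω j a ha hz
    rw [wsum_mul hLa, hLa] at h2
    exact lt_of_mul_lt_mul_left h2 h0.le
  fn := f.fn
  bd := by
    obtain ⟨K, hK, h⟩ := f.bd
    exact ⟨K, chg_sub S.tr e h0 hK, h⟩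
  pt := by
    obtain ⟨K, hK, h⟩ := f.pt
    refine ⟨K, chg_sub S.tr e h0 hK, ?_⟩
    filter_upwards [h, hK.1] with k hk hK0 ω hω j
    have h2 := (hk ω hω j).trans (mul_le_mul_of_nonneg_left (S.dl_anti h1 k) hK0)
    have h3 : (S.chg S.tr e h0).dl 1 k = S.dl e k := by rw [chg_dl, mul_one]
    have h4 : (fun i => (S.chg S.tr e h0).dl (La i) k * f.X.v k ω i) = fun i => S.dl (La' i) k * f.X.v k ω i := by
      funext i
      rw [chg_dl, hLa]
    have h5 : (S.chg S.tr e h0).dl (La j) k = S.dl (La' j) k := by rw [chg_dl, hLa]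
    show |Q.v k ((l k).p.π ω) j - (MvPolynomial.eval (fun i => (S.chg S.tr e h0).dl (La i) k * f.X.v k ω i)
      (f.P k ω j) + (S.chg S.tr e h0).dl (La j) k * f.X.v k ω j)| ≤ K k * (S.chg S.tr e h0).dl 1 k
    rw [h3, h4, h5]
    exact h2

/-- the exact coordinates -/
def fux (La' : Fin M → ℝ) (f : Frm (Q.chg S.tr e h0) l La) (k : ℕ) (ω : (l k).T.Ω) (j : Fin M) : ℝ :=
  (S.dl (La' j) k)⁻¹ * MvPolynomial.eval (Q.v k ((l k).p.π ω)) (inv (f.P k ω) j)

/-- the exact coordinates differ from the old ones by the finest resolution of the truncation -/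
theorem fux_near (hLa : ∀ j, La' j = e * La j) (f : Frm (Q.chg S.tr e h0) l La) (hL0 : ∀ j, 0 ≤ La' j) {d : ℕ}
    (hd : ∀ k ω j, (f.P k ω j).totalDegree ≤ d) : ∃ K : ℕ → ℝ, S.Sub K ∧ ∀ᶠ k in UF, ∀ ω : (l k).T.Ω,
      (l k).T.μ ω ≠ 0 → ∀ j, |fux La' f k ω j - f.X.v k ω j| ≤ K k * S.dl (e - La' j) k := by
  obtain ⟨Kc, hKc', hc⟩ := f.bd
  obtain ⟨Kp, hKp', hp⟩ := f.pt
  obtain ⟨Kx, hKx', hx⟩ := f.X.bd
  have hKc : S.Sub Kc := chg_sub' S.tr e h0 hKc'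
  have hKp : S.Sub Kp := chg_sub' S.tr e h0 hKp'
  have hKx : S.Sub Kx := chg_sub' S.tr e h0 ((sp_Sub l).mp hKx')
  obtain ⟨L, hL⟩ : ∃ L : ℕ → ℝ, L = fun k => ((d : ℝ) + 1) ^ M * Kc k * (d * (Kx k + 1) ^ d) := ⟨_, rfl⟩
  have hLS : S.Sub L := by rw [hL]; exact Sub_L hKc hKx M d
  have hE : S.Sub (fun k => (1 + L k) ^ M * Kp k) := (Sub_pow' ((S.Sub_const zero_le_one).add hLS) M).mul hKp
  refine ⟨_, hE, ?_⟩
  filter_upwards [hc, hp, hx, hKc.1, hKp.1, hKx.1, hE.eventually_le h0] with k c2 c3 c4 p1 p2 p4 p5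
  intro ω hω j
  have hδ := S.dl_pos e k
  have hd1 : S.dl e k * 2 ^ (e * (S.F k).n) = 1 := by
    unfold Sp.dl
    rw [← Real.rpow_add (by norm_num)]
    norm_num
  have hL0' : 0 ≤ L k := by rw [hL]; positivity
  have hs : (1 + L k) ^ M * (Kp k * S.dl e k) ≤ 1 := by
    have h2 := mul_le_mul_of_nonneg_right p5 hδ.le
    rw [mul_comm (2 ^ (e * (S.F k).n)) (S.dl e k), hd1] at h2
    linarith
  have h2 := inv_val (f.tri k ω) (fun j => hd k ω j) p1 (fun j a => c2 ω hω j a) p4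
    (show 0 ≤ Kp k * S.dl e k by positivity) (L := L k) (by rw [hL]) hs
    (fun a => S.dl (La' a) k * f.X.v k ω a) (Q.v k ((l k).p.π ω)) (fun i => by
      rw [abs_mul, abs_of_pos (S.dl_pos _ _)]
      have h3 : S.dl (La' i) k ≤ 1 := (S.dl_anti (hL0 i) k).trans (le_of_eq (S.dl_zero k))
      have h4 : |f.X.v k ω i| ≤ Kx k := c4 ω hω i
      calc S.dl (La' i) k * |f.X.v k ω i| ≤ 1 * |f.X.v k ω i| :=
            mul_le_mul_of_nonneg_right h3 (abs_nonneg _)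
        _ ≤ Kx k := by rw [one_mul]; exact h4)
    (fun i => by
      have h4 := c3 ω hω i
      have e1 : ∀ a, (S.chg S.tr e h0).dl (La a) k = S.dl (La' a) k := fun a => by rw [chg_dl, hLa]
      have e2 : (fun a => (S.chg S.tr e h0).dl (La a) k * f.X.v k ω a) =
          fun a => S.dl (La' a) k * f.X.v k ω a := funext fun a => by rw [e1]
      have e3 : (S.chg S.tr e h0).dl 1 k = S.dl e k := by rw [chg_dl, mul_one]
      rw [e1, e2, e3] at h4
      exact h4) j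
  have h3 : fux La' f k ω j - f.X.v k ω j = (S.dl (La' j) k)⁻¹ *
      (MvPolynomial.eval (Q.v k ((l k).p.π ω)) (inv (f.P k ω) j) - S.dl (La' j) k * f.X.v k ω j) := by
    unfold fux
    rw [mul_sub, ← mul_assoc _ (S.dl (La' j) k), inv_mul_cancel₀ (S.dl_pos _ _).ne', one_mul]
  rw [h3, abs_mul, abs_of_pos (inv_pos.mpr (S.dl_pos _ _))]
  refine (mul_le_mul_of_nonneg_left h2 (inv_pos.mpr (S.dl_pos _ _)).le).trans (le_of_eq ?_)
  have h4 : (S.dl (La' j) k)⁻¹ * ((1 + L k) ^ M * (Kp k * S.dl e k)) =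
      (1 + L k) ^ M * Kp k * ((S.dl (La' j) k)⁻¹ * S.dl e k) := by ring
  rw [h4, dl_inv_mul]

/-- exactness -/
theorem fux_exact (La' : Fin M → ℝ) (f : Frm (Q.chg S.tr e h0) l La) (k : ℕ) (ω : (l k).T.Ω) (j : Fin M) :
    Q.v k ((l k).p.π ω) j = MvPolynomial.eval (fun a => S.dl (La' a) k * fux La' f k ω a) (f.P k ω j) +
      S.dl (La' j) k * fux La' f k ω j := by
  have hu : ∀ i, S.dl (La' i) k * fux La' f k ω i = MvPolynomial.eval (Q.v k ((l k).p.π ω)) (inv (f.P k ω) i) :=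
    fun i => by
      unfold fux
      rw [← mul_assoc, mul_inv_cancel₀ (S.dl_pos _ _).ne', one_mul]
  have h1 : (fun a => S.dl (La' a) k * fux La' f k ω a) =
      fun i => MvPolynomial.eval (Q.v k ((l k).p.π ω)) (inv (f.P k ω) i) := funext hu
  rw [h1, hu]
  have h3 := inv_eval (f.tri k ω) (Q.v k ((l k).p.π ω)) j
  rw [h3]
  ring

/-- FRAMES UP: a frame of the truncation with exponents at most `1` gives a frame of the point -/
def fup (hLa : ∀ j, La' j = e * La j) (f : Frm (Q.chg S.tr e h0) l La) (hL0 : ∀ j, 0 ≤ La' j)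
    (hL1 : ∀ j, La' j ≤ e) {d : ℕ} (hd : ∀ k ω j, (f.P k ω j).totalDegree ≤ d) : Frm Q (untL l) La' where
  X := ⟨fux La' f, by
    obtain ⟨K, hK, h⟩ := fux_near hLa f hL0 hd
    obtain ⟨K', hK', h'⟩ := f.X.bd
    refine ⟨fun k => K k + K' k, ((sp_Sub (untL l)).mpr hK).add ((unt_Sub l).mp hK'), ?_⟩
    filter_upwards [h, h', hK.1] with k a b c ω hω i
    have h2 := a ω hω i
    have h3 : |f.X.v k ω i| ≤ K' k := b ω hω i
    have h4 : K k * S.dl (e - La' i) k ≤ K k :=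
      mul_le_of_le_one_right c ((S.dl_anti (sub_nonneg.mpr (hL1 i)) k).trans (le_of_eq (S.dl_zero k)))
    rw [abs_le] at h2 h3 ⊢
    constructor <;> linarith⟩
  P := f.P
  tri := f.tri
  red := fun k ω j a ha hz => by
    have h2 := f.red k ω j a ha hz
    rw [wsum_mul hLa, hLa]
    exact mul_lt_mul_of_pos_left h2 h0
  fn := f.fn
  bd := by
    obtain ⟨K, hK, h⟩ := f.bd
    exact ⟨K, chg_sub' S.tr e h0 hK, h⟩
  pt := by
    refine ⟨fun _ => 0, S.Sub_const le_rfl, ?_⟩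
    refine Eventually.of_forall fun k ω _ j => ?_
    rw [zero_mul]
    apply le_of_eq
    rw [abs_eq_zero, sub_eq_zero]
    exact fux_exact La' f k ω j

theorem fup_near (hLa : ∀ j, La' j = e * La j) (f : Frm (Q.chg S.tr e h0) l La) (hL0 : ∀ j, 0 ≤ La' j)
    (hL1 : ∀ j, La' j ≤ e) {d : ℕ} (hd : ∀ k ω j, (f.P k ω j).totalDegree ≤ d) : ∃ K : ℕ → ℝ, S.Sub K ∧
      ∀ᶠ k in UF, ∀ ω : (l k).T.Ω, (l k).T.μ ω ≠ 0 → ∀ j,
        |(fup hLa f hL0 hL1 hd).X.v k ω j - f.X.v k ω j| ≤ K k * S.dl (e - La' j) k := fux_near hLa f hL0 hd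

end gen

/-! ### labels of both spaces -/

/-- literal labels -/
def rfz (Z : ∀ k, Setoid (S.F k).Ω) : Rfn (untL (Lab.ofZ (S := S.chg S.tr e h0) Z)) (Lab.ofZ Z) where
  q := fun k => ⟨fun ω => ω, (FLab.triv (S.F k)).p.law, fun _ _ _ _ => ⟨fun h => h.2, fun h => ⟨trivial, h⟩⟩⟩
  hn := fun _ => rfl
  pr := fun _ _ _ => rfl
  lb := fun _ _ _ _ _ _ h => h

def rfz' (Z : ∀ k, Setoid (S.F k).Ω) : Rfn (Lab.ofZ Z) (untL (Lab.ofZ (S := S.chg S.tr e h0) Z)) where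
  q := fun k => ⟨fun ω => ω, (FLab.triv (S.F k)).p.law, fun _ _ _ _ => ⟨fun h => ⟨trivial, h⟩, fun h => h.2⟩⟩
  hn := fun _ => rfl
  pr := fun _ _ _ => rfl
  lb := fun _ _ _ _ _ _ h => h

section lit

variable {Z : ∀ k, Setoid (S.F k).Ω}

/-- FRAMES DOWN, literal labels -/
def fdz (hLa : ∀ j, La' j = e * La j) (h1 : e ≤ 1) (f : Frm Q (Lab.ofZ Z) La') :
    Frm (Q.chg S.tr e h0) (Lab.ofZ (S := S.chg S.tr e h0) Z) La := fdn hLa h1 (frx (rfz Z) f)

/-- FRAMES UP, literal labels -/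
def fuz (hLa : ∀ j, La' j = e * La j) (f : Frm (Q.chg S.tr e h0) (Lab.ofZ (S := S.chg S.tr e h0) Z) La)
    (hL0 : ∀ j, 0 ≤ La' j) (hL1 : ∀ j, La' j ≤ e) {d : ℕ} (hd : ∀ k ω j, (f.P k ω j).totalDegree ≤ d) :
    Frm Q (Lab.ofZ Z) La' := frx (rfz' Z) (fup hLa f hL0 hL1 hd)

theorem fuz_near (hLa : ∀ j, La' j = e * La j)
    (f : Frm (Q.chg S.tr e h0) (Lab.ofZ (S := S.chg S.tr e h0) Z) La)
    (hL0 : ∀ j, 0 ≤ La' j) (hL1 : ∀ j, La' j ≤ e) {d : ℕ} (hd : ∀ k ω j, (f.P k ω j).totalDegree ≤ d) :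
    ∃ K : ℕ → ℝ, S.Sub K ∧ ∀ᶠ k in UF, ∀ ω : (S.F k).Ω, (S.F k).μ ω ≠ 0 → ∀ j,
      |(fuz hLa f hL0 hL1 hd).X.v k ω j - f.X.v k ω j| ≤ K k * S.dl (e - La' j) k := fux_near hLa f hL0 hd

end lit

end

end Pool.Agent.Helper5.TRY
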