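import Pool.Agent.Helper5.TRY.Frm
import Pool.Agent.Helper71.VIS.Trk
import Pool.Agent.Helper29.MX.St2

/-! TRUNCATION OF LEAST CARRIERS: the least carriers of the truncation at the level `e` are the least carriers of the
system of the windows `e c`; the clauses `Car`, `Dfx`, `Vsx` for truncations, any resolution. -/

set_option autoImplicit false

namespace Pool.Agent.Helper5.TRY

open Finset Filter Topology Pool.Agent.Helper69.RK Pool.Agent.Helper31.EC Pool.Agent.Helper31.EC.Sp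
open Pool.Agent.Helper40.EL Pool.Agent.Helper89.LX Pool.Agent.Helper3.LF Pool.Agent.Helper84.MT
open Pool.Agent.Helper36.AM
open Pool.Agent.Helper29.MX
open Pool.Agent.Helper87.NSL (cndR KnS)
open Pool.Agent.Helper52.SL (untF tnF untL tnL nul_trn cellv_chg untF_leak tnF_leak)
open Pool.Agent.Helper71.VIS (cnw cndR_fcs cndR_trn fcs)
open Pool.Agent.Helper18.TRF (Rfn frx dl_inv_mul frm_deg0)
open Pool.Agent.Helper13.AM (chg_sub')

noncomputable section

variable {S : Sp} {M : ℕ} {E : ℕ → ℕ} {ι : Type} {s : MSys S M E ι} {R : Rsl S} {e : ℝ} {h0 : 0 < e} {h1 : e ≤ 1}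

/-- K-LABELS OF THE TRUNCATION are the K-labels of the window `e c` -/
theorem klb_trn {c : ℝ} {l : Lab (S.chg S.tr e h0)} :
    KLb (s.trn e h0 h1) R c l ↔ KLb s R (e * c) (untL l) := by
  unfold KLb
  rw [cndR_trn s h0 h1 R c, cndR_fcs s]
  have h2 : l.DMf (fcs (S.chg S.tr e h0) (cnw (S := S) s R (e * c))) ↔ (untL l).DMf (fcs S (cnw (S := S) s R (e * c))) :=
    ⟨fun h i => nul_trn.mp (h i), fun h i => nul_trn.mpr (h i)⟩
  exact and_congr h2 Iff.rfl

/-- leaks of literal labels -/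
theorem ofz_leak (Z : ∀ k, Setoid (S.F k).Ω) (A : ∀ k, Setoid (S.F k).Ω) (k : ℕ) :
    (untL (Lab.ofZ (S := S.chg S.tr e h0) Z) k).leak (fc (A k)) = (Lab.ofZ Z k).leak (fc (A k)) := by
  have e1 := Lab.ofZ_leak (S := S.chg S.tr e h0) Z (fun k => fc (F := (S.chg S.tr e h0).F k) (A k)) k
  have e2 := Lab.ofZ_leak Z (fun k => fc (A k)) k
  have e3 := h_chg_top (F := S.F k) e h0 (Z k) (A k)
  rw [e2]
  exact e1.trans e3

theorem klb_trn_z {c : ℝ} {X : Rsl S} :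
    KLb (s.trn e h0 h1) R c (Lab.ofZ (S := S.chg S.tr e h0) X) ↔ KLb s R (e * c) (Lab.ofZ X) := by
  rw [klb_trn]
  unfold KLb
  rw [cndR_fcs s]
  apply and_congr
  · apply forall_congr'
    intro i
    have e1 : (fun k => (untL (Lab.ofZ (S := S.chg S.tr e h0) X) k).leak (fcs S (cnw s R (e * c)) i k)) =
        fun k => (Lab.ofZ X k).leak (fcs S (cnw s R (e * c)) i k) := funext fun k => ofz_leak X _ k
    rw [e1]
  · apply eventually_congr
    refine Eventually.of_forall fun k => ?_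
    show (untL (Lab.ofZ (S := S.chg S.tr e h0) X) k).leak (fc (R k)) = 0 ↔ (Lab.ofZ X k).leak (fc (R k)) = 0
    rw [ofz_leak X R k]

theorem mul_hLa (w : Fin M → ℝ) (e c : ℝ) (j : Fin M) : w j * (e * c) = e * (w j * c) := by ring

/-- degrees of frames with weights -/
theorem deg_ex {Q : S.VV M} {l : Lab S} {w : Fin M → ℝ} {c : ℝ} (f : Frm Q l (fun j => w j * c)) (hc : 0 ≤ c)
    (hw : ∀ j, 1 ≤ w j) : ∃ d : ℕ, ∀ k ω j, (f.P k ω j).totalDegree ≤ d := by
  refine ⟨∑ j, ⌈w j⌉₊, fun k ω j => frm_deg0 f hc hw (fun j => ?_) k ω j⟩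
  refine (Nat.le_ceil (w j)).trans ?_
  exact_mod_cast Finset.single_le_sum (f := fun j => ⌈w j⌉₊) (fun _ _ => Nat.zero_le _) (Finset.mem_univ j)

section wts

variable {w : Fin M → ℝ} {c : ℝ}

theorem hL0_of (hw : ∀ j, 1 ≤ w j) (he : 0 < e) (hc : 0 ≤ c) (j : Fin M) : 0 ≤ w j * (e * c) :=
  mul_nonneg (zero_le_one.trans (hw j)) (mul_nonneg he.le hc)

theorem hL1_of (he : 0 < e) (hc : ∀ j, w j * c ≤ 1) (j : Fin M) : w j * (e * c) ≤ e := by
  rw [mul_hLa]
  exact mul_le_of_le_one_right he.le (hc j)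

/-- frames of the truncation, all labels -/
theorem frm_iff {Q : S.VV M} {l : Lab (S.chg S.tr e h0)} (h1 : e ≤ 1) (hw : ∀ j, 1 ≤ w j) (hc : 0 ≤ c)
    (hc1 : ∀ j, w j * c ≤ 1) :
    Nonempty (Frm (Q.chg S.tr e h0) l fun j => w j * c) ↔ Nonempty (Frm Q (untL l) fun j => w j * (e * c)) := by
  constructor
  · rintro ⟨f⟩
    obtain ⟨d, hd⟩ := deg_ex f hc hw
    exact ⟨fup (mul_hLa w e c) f (hL0_of hw h0 hc) (hL1_of h0 hc1) hd⟩
  · rintro ⟨f⟩
    exact ⟨fdn (mul_hLa w e c) h1 f⟩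

/-- frames of the truncation, literal labels -/
theorem frm_iff_z {Q : S.VV M} {X : Rsl S} (h1 : e ≤ 1) (hw : ∀ j, 1 ≤ w j) (hc : 0 ≤ c) (hc1 : ∀ j, w j * c ≤ 1) :
    Nonempty (Frm (Q.chg S.tr e h0) (Lab.ofZ (S := S.chg S.tr e h0) X) fun j => w j * c) ↔
      Nonempty (Frm Q (Lab.ofZ X) fun j => w j * (e * c)) := by
  constructor
  · rintro ⟨f⟩
    obtain ⟨d, hd⟩ := deg_ex f hc hw
    exact ⟨fuz (mul_hLa w e c) f (hL0_of hw h0 hc) (hL1_of h0 hc1) hd⟩
  · rintro ⟨f⟩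
    exact ⟨fdz (mul_hLa w e c) h1 f⟩

/-- **LEAST CARRIERS OF THE TRUNCATION** are the least carriers of the window `e c` -/
theorem mc_trn (hw : ∀ j, 1 ≤ w j) (hc : 0 ≤ c) (hc1 : ∀ j, w j * c ≤ 1) {X : Rsl S} :
    Mc (S := S.chg S.tr e h0) (s.trn e h0 h1) R w c X ↔ Mc s R w (e * c) X := by
  constructor
  · intro h
    refine ⟨?_, klb_trn_z.mp h.kl, (frm_iff_z h1 hw hc hc1).mp h.fr, fun l hl hf => ?_⟩
    · filter_upwards [h.lit] with k hk
      intro x y hxy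
      exact hk ⟨hxy.1, trivial, hxy.2⟩
    · have e1 : untL (tnL e h0 l) = l := untL_tnL h0 l
      have h2 := h.min (tnL e h0 l) (klb_trn.mpr (by rw [e1]; exact hl))
        ((frm_iff (Q := s.Q) h1 hw hc hc1).mpr (by rw [e1]; exact hf))
      have h3 := nul_trn.mp h2
      exact h3
  · intro h
    refine ⟨?_, klb_trn_z.mpr h.kl, (frm_iff_z h1 hw hc hc1).mpr h.fr, fun l hl hf => ?_⟩
    · filter_upwards [h.lit] with k hk
      intro x y hxy
      exact hk ⟨hxy.1, hxy.2.2⟩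
    · have h2 := h.min (untL l) (klb_trn.mp hl) ((frm_iff (Q := s.Q) h1 hw hc hc1).mp hf)
      exact nul_trn.mpr h2

/-- [CAR] for truncations -/
theorem car_trn (hw : ∀ j, 1 ≤ w j) (h : Car w s R) : Car (S := S.chg S.tr e h0) w (s.trn e h0 h1) R := by
  intro c hc hc1
  obtain ⟨X, hX⟩ := h (e * c) (mul_nonneg h0.le hc) fun i => by
    rw [mul_hLa]
    exact lt_of_lt_of_le (mul_lt_of_lt_one_right h0 (hc1 i)) h1
  exact ⟨X, (mc_trn hw hc fun i => (hc1 i).le).mpr hX⟩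

end wts

end

end Pool.Agent.Helper5.TRY
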